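import Mathlib

set_option autoImplicit false

/-! The macroscopic design: four strands and two fractional atoms covering
all levels in `[0,84]` and all labels modulo `16` with total length about `63`. -/

namespace Pool.Agent.MP_f485b3_co.H43

def hT : Fin 4 → ℕ := ![0, 45, 76, 82]
def eT : Fin 4 → ℕ := ![22, 62, 84, 84]
def sT : Fin 4 → ℕ := ![0, 12, 10, 8]

/-- cell condition: `i` level, `m` label, `n` level plus label -/
def Cell (i m n : ℕ) : Prop :=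
  (∃ p q : Fin 4, ∃ s : Fin 8, hT q + 32 ≤ m + sT p + sT q + 16 * s ∧
      m + sT p + sT q + 16 * s + 1 ≤ eT q + 32 ∧ hT p + 32 ≤ n + sT p + sT q + 16 * s ∧
      n + sT p + sT q + 16 * s + 1 ≤ eT p + 32) ∨
  (∃ p : Fin 4, ∃ s : Fin 3, 24 ≤ m + sT p + 16 * s ∧ m + sT p + 16 * s + 1 ≤ 32 ∧
      hT p ≤ i ∧ i + 1 ≤ eT p) ∨
  (∃ q : Fin 4, ∃ s : Fin 9, 124 ≤ n + sT q + 16 * s ∧ n + sT q + 16 * s + 1 ≤ 130 ∧
      hT q + i + 1 ≤ 84 ∧ 84 ≤ eT q + i)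

instance (i m n : ℕ) : Decidable (Cell i m n) := by unfold Cell; infer_instance

theorem cells : ∀ i : Fin 84, ∀ m : Fin 16, ∀ b : Fin 2, Cell i m (i + m + b) := by
  decide +kernel

/-- index type of the pieces -/
abbrev Idx (R : ℕ) := Fin 4 ⊕ Fin (8 * R + 1) ⊕ Fin (6 * R + 1)

noncomputable def hP (R : ℕ) : Idx R → ℝ
  | Sum.inl p => hT p
  | Sum.inr (Sum.inl _) => 0
  | Sum.inr (Sum.inr _) => 84

noncomputable def lP (R : ℕ) : Idx R → ℝ
  | Sum.inl p => (eT p : ℝ) - hT p + 1 / R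
  | Sum.inr _ => 1 / R

noncomputable def sP (R : ℕ) : Idx R → ℝ
  | Sum.inl p => sT p
  | Sum.inr (Sum.inl r) => 8 - (r : ℕ) / R
  | Sum.inr (Sum.inr r) => 8 - (r : ℕ) / R

theorem split (R : ℕ) (hR : 0 < R) (c : ℕ) (a : ℝ) (h0 : 0 ≤ a) (h1 : a ≤ c) :
    ∃ r : Fin (c * R + 1), ((r : ℕ) : ℝ) / R ≤ a ∧ a ≤ ((r : ℕ) : ℝ) / R + 1 / R := by
  have hR' : (0 : ℝ) < R := by exact_mod_cast hR
  have h2 : 0 ≤ a * R := by positivity
  have h3 : ⌊a * R⌋₊ ≤ c * R := by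
    apply Nat.floor_le_of_le
    push_cast
    exact mul_le_mul_of_nonneg_right h1 hR'.le
  refine ⟨⟨⌊a * R⌋₊, by omega⟩, ?_, ?_⟩
  · rw [div_le_iff₀ hR']; exact Nat.floor_le h2
  · rw [← add_div, le_div_iff₀ hR']; exact (Nat.lt_floor_add_one _).le

theorem design0 (R : ℕ) (hR : 0 < R) (t γ : ℝ) (ht0 : 0 ≤ t) (ht1 : t < 84) (hγ0 : 0 ≤ γ)
    (hγ1 : γ < 16) : ∃ p q : Idx R, ∃ s : ℤ,
      hP R q ≤ γ + sP R p + sP R q + 16 * s ∧ γ + sP R p + sP R q + 16 * s ≤ hP R q + lP R q ∧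
      hP R p ≤ γ + sP R p + sP R q + 16 * s + t ∧
      γ + sP R p + sP R q + 16 * s + t ≤ hP R p + lP R p := by
  have hR' : (0 : ℝ) < 1 / R := by
    have : (0 : ℝ) < R := by exact_mod_cast hR
    positivity
  have hi : ⌊t⌋₊ < 84 := (Nat.floor_lt ht0).2 (by exact_mod_cast ht1)
  have hm : ⌊γ⌋₊ < 16 := (Nat.floor_lt hγ0).2 (by exact_mod_cast hγ1)
  have hi0 := Nat.floor_le ht0
  have hi1 := (Nat.lt_floor_add_one t).le
  have hm0 := Nat.floor_le hγ0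
  have hm1 := (Nat.lt_floor_add_one γ).le
  generalize ⌊t⌋₊ = i at hi hi0 hi1
  generalize ⌊γ⌋₊ = m at hm hm0 hm1
  obtain ⟨n, hn0, hn1, hc⟩ : ∃ n : ℕ, (n : ℝ) ≤ t + γ ∧ t + γ ≤ n + 1 ∧ Cell i m n := by
    rcases le_total (t + γ) (i + m + 1) with h | h
    · refine ⟨i + m + 0, by push_cast; linarith, by push_cast; linarith, ?_⟩
      exact cells ⟨i, hi⟩ ⟨m, hm⟩ 0
    · refine ⟨i + m + 1, by push_cast; linarith, by push_cast; linarith, ?_⟩
      exact cells ⟨i, hi⟩ ⟨m, hm⟩ 1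
  rcases hc with ⟨p, q, s, h1, h2, h3, h4⟩ | ⟨p, s, h1, h2, h3, h4⟩ | ⟨q, s, h1, h2, h3, h4⟩
  · refine ⟨Sum.inl p, Sum.inl q, ((s : ℕ) : ℤ) - 2, ?_⟩
    have h1' : (hT q : ℝ) + 32 ≤ m + sT p + sT q + 16 * (s : ℕ) := by exact_mod_cast h1
    have h2' : (m : ℝ) + sT p + sT q + 16 * (s : ℕ) + 1 ≤ eT q + 32 := by exact_mod_cast h2
    have h3' : (hT p : ℝ) + 32 ≤ n + sT p + sT q + 16 * (s : ℕ) := by exact_mod_cast h3
    have h4' : (n : ℝ) + sT p + sT q + 16 * (s : ℕ) + 1 ≤ eT p + 32 := by exact_mod_cast h4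
    simp only [hP, lP, sP]
    push_cast
    refine ⟨by linarith, by linarith, by linarith, by linarith⟩
  · have h1' : (24 : ℝ) ≤ m + sT p + 16 * (s : ℕ) := by exact_mod_cast h1
    have h2' : (m : ℝ) + sT p + 16 * (s : ℕ) + 1 ≤ 32 := by exact_mod_cast h2
    have h3' : (hT p : ℝ) ≤ i := by exact_mod_cast h3
    have h4' : (i : ℝ) + 1 ≤ eT p := by exact_mod_cast h4
    obtain ⟨r, hr0, hr1⟩ := split R hR 8 (γ + sT p + 16 * (s : ℕ) - 24) (by linarith)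
      (by push_cast; linarith)
    refine ⟨Sum.inl p, Sum.inr (Sum.inl r), ((s : ℕ) : ℤ) - 2, ?_⟩
    simp only [hP, lP, sP]
    push_cast
    refine ⟨by linarith, by linarith, by linarith, by linarith⟩
  · have h1' : (124 : ℝ) ≤ n + sT q + 16 * (s : ℕ) := by exact_mod_cast h1
    have h2' : (n : ℝ) + sT q + 16 * (s : ℕ) + 1 ≤ 130 := by exact_mod_cast h2
    have h3' : (hT q : ℝ) + i + 1 ≤ 84 := by exact_mod_cast h3
    have h4' : (84 : ℝ) ≤ eT q + i := by exact_mod_cast h4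
    obtain ⟨r, hr0, hr1⟩ := split R hR 6 (γ + t + sT q + 16 * (s : ℕ) - 124) (by linarith)
      (by push_cast; linarith)
    refine ⟨Sum.inr (Sum.inr r), Sum.inl q, ((s : ℕ) : ℤ) - 3, ?_⟩
    simp only [hP, lP, sP]
    push_cast
    refine ⟨by linarith, by linarith, by linarith, by linarith⟩

theorem bounds (R : ℕ) (hR : 0 < R) (p : Idx R) :
    0 ≤ hP R p ∧ 0 ≤ lP R p ∧ hP R p + lP R p ≤ 84 + 1 / R ∧ 0 ≤ sP R p ∧ sP R p ≤ 16 := by
  have hR0 : (0 : ℝ) < R := by exact_mod_cast hR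
  have hR' : (0 : ℝ) < 1 / R := by positivity
  rcases p with p | r | r
  · have h : ∀ p : Fin 4, hT p ≤ eT p ∧ eT p ≤ 84 ∧ sT p ≤ 16 := by decide
    obtain ⟨h1, h2, h3⟩ := h p
    have h1' : (hT p : ℝ) ≤ eT p := by exact_mod_cast h1
    have h2' : (eT p : ℝ) ≤ 84 := by exact_mod_cast h2
    have h3' : (sT p : ℝ) ≤ 16 := by exact_mod_cast h3
    simp only [hP, lP, sP]
    refine ⟨by positivity, by linarith, by linarith, by positivity, h3'⟩
  · have h1 : ((r : ℕ) : ℝ) ≤ 8 * R := by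
      have := r.2
      exact_mod_cast (by omega : (r : ℕ) ≤ 8 * R)
    have h2 : ((r : ℕ) : ℝ) / R ≤ 8 := by rw [div_le_iff₀ hR0]; exact h1
    have h3 : 0 ≤ ((r : ℕ) : ℝ) / R := by positivity
    simp only [hP, lP, sP]
    refine ⟨le_rfl, hR'.le, by linarith, by linarith, by linarith⟩
  · have h1 : ((r : ℕ) : ℝ) ≤ 8 * R := by
      have := r.2
      exact_mod_cast (by omega : (r : ℕ) ≤ 8 * R)
    have h2 : ((r : ℕ) : ℝ) / R ≤ 8 := by rw [div_le_iff₀ hR0]; exact h1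
    have h3 : 0 ≤ ((r : ℕ) : ℝ) / R := by positivity
    simp only [hP, lP, sP]
    refine ⟨by norm_num, hR'.le, by linarith, by linarith, by linarith⟩

theorem total (R : ℕ) (hR : 0 < R) : ∑ p : Idx R, lP R p = 63 + 6 / R := by
  have hR0 : (R : ℝ) ≠ 0 := by exact_mod_cast hR.ne'
  simp only [Fintype.sum_sum_type, lP, Fin.sum_univ_four, Finset.sum_const, Finset.card_univ,
    Fintype.card_sum, Fintype.card_fin, nsmul_eq_mul]
  simp only [hT, eT, Matrix.cons_val_zero, Matrix.cons_val_one, Matrix.cons_val]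
  push_cast
  field_simp
  ring

theorem cardIdx (R : ℕ) : Fintype.card (Idx R) = 14 * R + 6 := by
  simp only [Fintype.card_sum, Fintype.card_fin]; omega

/-- The design, for labels in `[0,32)`, with a bound on the shift. -/
theorem design (R : ℕ) (hR : 0 < R) (t γ : ℝ) (ht0 : 0 ≤ t) (ht1 : t < 84) (hγ0 : 0 ≤ γ)
    (hγ1 : γ < 32) : ∃ p q : Idx R, ∃ s : ℤ, |(s : ℝ)| ≤ 6 ∧
      hP R q ≤ γ + sP R p + sP R q + 16 * s ∧ γ + sP R p + sP R q + 16 * s ≤ hP R q + lP R q ∧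
      hP R p ≤ γ + sP R p + sP R q + 16 * s + t ∧
      γ + sP R p + sP R q + 16 * s + t ≤ hP R p + lP R p := by
  have hR1 : (1 : ℝ) / R ≤ 1 := by
    have : (1 : ℝ) ≤ R := by exact_mod_cast hR
    exact (div_le_one (by linarith)).2 this
  have key : ∃ p q : Idx R, ∃ s : ℤ,
      hP R q ≤ γ + sP R p + sP R q + 16 * s ∧ γ + sP R p + sP R q + 16 * s ≤ hP R q + lP R q ∧
      hP R p ≤ γ + sP R p + sP R q + 16 * s + t ∧
      γ + sP R p + sP R q + 16 * s + t ≤ hP R p + lP R p := by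
    rcases lt_or_ge γ 16 with h | h
    · exact design0 R hR t γ ht0 ht1 hγ0 h
    · obtain ⟨p, q, s, h1, h2, h3, h4⟩ := design0 R hR t (γ - 16) ht0 ht1 (by linarith) (by linarith)
      refine ⟨p, q, s - 1, ?_⟩
      push_cast
      refine ⟨by linarith, by linarith, by linarith, by linarith⟩
  obtain ⟨p, q, s, h1, h2, h3, h4⟩ := key
  obtain ⟨a1, a2, a3, a4, a5⟩ := bounds R hR p
  obtain ⟨b1, b2, b3, b4, b5⟩ := bounds R hR q
  refine ⟨p, q, s, ?_, h1, h2, h3, h4⟩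
  rw [abs_le]; constructor <;> linarith

end Pool.Agent.MP_f485b3_co.H43
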