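import Pool.Agent.MP_f485b3_co.H43.Fam
import Pool.Agent.MP_f485b3_co.H43.Design

set_option autoImplicit false

/-! Many sets of integers whose pairwise difference sets contain a long interval. -/

namespace Pool.Agent.MP_f485b3_co.H43

open Finset

theorem piece (a b : ℝ) (l : ℕ) (c : ℤ) (hl : 0 < l) (hab : a ≤ b) : ∃ S : Finset ℤ,
    (S.card : ℝ) ≤ (b - a) / l + 1 ∧ (∀ x ∈ S, a ≤ (x : ℝ) ∧ (x : ℝ) ≤ b) ∧
    ∀ x : ℤ, a ≤ (x : ℝ) → (x : ℝ) ≤ b → (l : ℤ) ∣ x - c → x ∈ S := by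
  classical
  have hl' : (0 : ℝ) < l := by exact_mod_cast hl
  refine ⟨(Icc ⌈(a - c) / l⌉ ⌊(b - c) / l⌋).image (fun i => c + l * i), ?_, ?_, ?_⟩
  · have h1 : (((Icc ⌈(a - c) / l⌉ ⌊(b - c) / l⌋).image (fun i => c + l * i)).card : ℝ) ≤
        ((Icc ⌈(a - c) / l⌉ ⌊(b - c) / l⌋).card : ℝ) := by exact_mod_cast card_image_le
    refine h1.trans ?_
    rw [Int.card_Icc]
    have h2 := Int.le_ceil ((a - c) / l)
    have h3 := Int.floor_le ((b - c) / l)
    have h4 : (b - a) / l = (b - c) / l - (a - c) / l := by ring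
    have h5 : 0 ≤ (b - a) / l := div_nonneg (by linarith) hl'.le
    rcases le_total 0 (⌊(b - c) / l⌋ + 1 - ⌈(a - c) / l⌉) with h | h
    · have h6 : (((⌊(b - c) / l⌋ + 1 - ⌈(a - c) / l⌉).toNat : ℕ) : ℝ) =
          ((⌊(b - c) / l⌋ + 1 - ⌈(a - c) / l⌉ : ℤ) : ℝ) := by
        exact_mod_cast Int.toNat_of_nonneg h
      rw [h6]; push_cast; linarith
    · rw [Int.toNat_eq_zero.2 h]; push_cast; linarith
  · intro x hx
    obtain ⟨i, hi, rfl⟩ := mem_image.1 hx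
    rw [mem_Icc, Int.ceil_le, Int.le_floor, div_le_iff₀ hl', le_div_iff₀ hl'] at hi
    push_cast
    constructor <;> linarith [hi.1, hi.2]
  · rintro x h1 h2 ⟨i, hi⟩
    have h3 : (x : ℝ) - c = l * i := by exact_mod_cast hi
    refine mem_image.2 ⟨i, ?_, by linarith⟩
    rw [mem_Icc, Int.ceil_le, Int.le_floor, div_le_iff₀ hl', le_div_iff₀ hl']
    constructor <;> linarith

theorem near1 (K a b : ℝ) (hK : 0 < K) (ha : K ≤ a) (hb : K ≤ b) (ha' : a ≤ K + K / 10 ^ 13)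
    (hb' : b ≤ K + K / 10 ^ 13) : |a * b - K ^ 2| ≤ 3 * K ^ 2 / 10 ^ 13 := by
  have h1 : K * K ≤ a * b := mul_le_mul ha hb hK.le (by linarith)
  have h2 : a * b ≤ (K + K / 10 ^ 13) * (K + K / 10 ^ 13) :=
    mul_le_mul ha' hb' (by linarith) (by positivity)
  have h3 : 0 < K ^ 2 := by positivity
  rw [abs_le]; constructor <;> nlinarith

theorem near2 (K a b C m ψ : ℝ) (hK : 0 < K) (ha : K ≤ a) (hb : K ≤ b)
    (ha' : a ≤ K + K / 10 ^ 13) (hb' : b ≤ K + K / 10 ^ 13) (hC : C ≤ K / 10 ^ 13)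
    (h0 : 0 ≤ ψ) (h1 : ψ ≤ 16) (hm : |m - ψ / 16 * a| ≤ a / 10 ^ 13 + C) :
    |b * m - ψ * (K ^ 2 / 16)| ≤ 9 * K ^ 2 / 10 ^ 13 := by
  have h2 := near1 K a b hK ha hb ha' hb'
  have h3 : b * m - ψ * (K ^ 2 / 16) = b * (m - ψ / 16 * a) + ψ / 16 * (a * b - K ^ 2) := by ring
  rw [h3]
  refine (abs_add_le _ _).trans ?_
  rw [abs_mul, abs_mul, abs_of_nonneg (by linarith : 0 ≤ b),
    abs_of_nonneg (by linarith : 0 ≤ ψ / 16)]
  have h4 : b * |m - ψ / 16 * a| ≤ (2 * K) * (3 * K / 10 ^ 13) :=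
    mul_le_mul (by linarith) (by linarith) (abs_nonneg _) (by linarith)
  have h5 : ψ / 16 * |a * b - K ^ 2| ≤ 1 * (3 * K ^ 2 / 10 ^ 13) :=
    mul_le_mul (by linarith) h2 (abs_nonneg _) (by norm_num)
  nlinarith

theorem crt0 (a b : ℕ) (ha : 0 < a) (hb : 0 < b) (h : Nat.Coprime a b) (w : ℤ) :
    ∃ g : ℤ, 0 ≤ g ∧ g < a * b ∧ (a : ℤ) ∣ g + w ∧ (b : ℤ) ∣ g := by
  obtain ⟨s, t, hst⟩ := Nat.isCoprime_iff_coprime.2 h
  have hab : (0 : ℤ) < a * b := by positivity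
  refine ⟨(-(w * t * b)) % (a * b), Int.emod_nonneg _ hab.ne', Int.emod_lt_of_pos _ hab, ?_, ?_⟩
  · rw [Int.emod_def]
    refine ⟨w * s - b * (-(w * t * b) / (a * b)), ?_⟩
    linear_combination (-w) * hst
  · rw [Int.emod_def]
    exact ⟨-(w * t) - a * (-(w * t * b) / (a * b)), by ring⟩

theorem cls1 (κ : ℕ) : ∃ F k0 : ℕ, 0 < F ∧ ∀ k, k0 ≤ k → ∀ J, J = k * F →
    ∃ X : Fin κ → Finset ℕ,
    (∀ d, (X d).card ≤ 3938 * J) ∧ (∀ d, ∀ x ∈ X d, x ≤ 5250008 * J ^ 2) ∧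
    ∀ d j, d ≠ j → ∀ w : ℕ, w < 5250000 * J ^ 2 → ∃ x ∈ X d, ∃ y ∈ X j, x = y + w := by
  classical
  obtain ⟨F, C, hF, hfam⟩ := fam κ (10 ^ 13) (by positivity)
  refine ⟨F, 10 ^ 13 * C + 10 ^ 6, hF, fun k hk J hJ => ?_⟩
  obtain ⟨l, hl, hcop, hoff⟩ := hfam (1000 * k)
  have hJ1 : 10 ^ 13 * C + 10 ^ 6 ≤ J := hk.trans (hJ ▸ Nat.le_mul_of_pos_right _ hF)
  have hK : 1000 * k * F = 1000 * J := by rw [hJ]; ring
  rw [hK] at hl
  clear hK hfam hJ hk
  have hJ6 : (10 : ℝ) ^ 6 ≤ J := by exact_mod_cast (by omega : 10 ^ 6 ≤ J)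
  have hJC : (10 : ℝ) ^ 13 * C ≤ J := by exact_mod_cast (by omega : 10 ^ 13 * C ≤ J)
  have hJ0 : (0 : ℝ) < J := by linarith
  set K : ℝ := 1000 * J with hKd
  have hK0 : 0 < K := by positivity
  have hCK : (C : ℝ) ≤ K / 10 ^ 13 := by
    rw [le_div_iff₀ (by positivity)]; linarith
  have hl0 : ∀ d, 0 < l d := fun d => by have := (hl d).1; omega
  have hl1 : ∀ d, K ≤ l d := fun d => by
    rw [hKd]; exact_mod_cast (hl d).1.le
  have hl2 : ∀ d, (l d : ℝ) ≤ K + K / 10 ^ 13 := fun d => by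
    have : (l d : ℝ) ≤ 1000 * J + C := by exact_mod_cast (hl d).2
    linarith
  set u : ℝ := K ^ 2 / 16 with hu
  have huJ : u = 62500 * J ^ 2 := by rw [hu, hKd]; ring
  have hu0 : 0 < u := by positivity
  set M : ℝ := (J : ℝ) ^ 2 / 10 ^ 5 with hM
  have hM0 : 0 < M := by positivity
  have hMK : 36 * K ^ 2 / 10 ^ 13 ≤ M := by
    rw [hM, hKd]
    have : (0 : ℝ) < J ^ 2 := by positivity
    nlinarith
  choose c hc using hoff
  have hR : 0 < 10000 := by norm_num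
  have hS : ∀ (d : Fin κ) (i : Idx 10000), ∃ S : Finset ℤ,
      (S.card : ℝ) ≤ ((hP 10000 i + lP 10000 i) * u + M - (hP 10000 i * u - M)) / l d + 1 ∧
      (∀ x ∈ S, hP 10000 i * u - M ≤ (x : ℝ) ∧ (x : ℝ) ≤ (hP 10000 i + lP 10000 i) * u + M) ∧
      ∀ x : ℤ, hP 10000 i * u - M ≤ (x : ℝ) → (x : ℝ) ≤ (hP 10000 i + lP 10000 i) * u + M →
        (l d : ℤ) ∣ x - c d (sP 10000 i / 16) → x ∈ S := by
    intro d i
    refine piece _ _ _ _ (hl0 d) ?_
    have := mul_nonneg (bounds 10000 hR i).2.1 hu0.le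
    nlinarith
  choose S hS1 hS2 hS3 using hS
  have hlow : ∀ d i, ∀ x ∈ S d i, 0 ≤ x + (J : ℤ) ^ 2 := by
    intro d i x hx
    have h1 := (hS2 d i x hx).1
    have h2 := mul_nonneg (bounds 10000 hR i).1 hu0.le
    have h3 : (0 : ℝ) < J ^ 2 := by positivity
    have : (0 : ℝ) ≤ x + (J : ℝ) ^ 2 := by rw [hM] at h1; nlinarith
    exact_mod_cast this
  refine ⟨fun d => (univ.biUnion (S d)).image (fun x => (x + (J : ℤ) ^ 2).toNat),
    ?_, ?_, ?_⟩
  · intro d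
    have h1 : ((univ.biUnion (S d)).image (fun x => (x + (J : ℤ) ^ 2).toNat)).card ≤
        ∑ i, (S d i).card := card_image_le.trans card_biUnion_le
    have h2 : ((∑ i, (S d i).card : ℕ) : ℝ) ≤ ∑ i, (lP 10000 i * (u / K) + (2 * M / K + 1)) := by
      push_cast
      refine sum_le_sum fun i _ => (hS1 d i).trans ?_
      have h3 := mul_nonneg (bounds 10000 hR i).2.1 hu0.le
      have h4 : (hP 10000 i + lP 10000 i) * u + M - (hP 10000 i * u - M) =
          lP 10000 i * u + 2 * M := by ring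
      rw [h4]
      have h5 : (lP 10000 i * u + 2 * M) / l d ≤ (lP 10000 i * u + 2 * M) / K :=
        div_le_div_of_nonneg_left (by linarith) hK0 (hl1 d)
      have h6 : (lP 10000 i * u + 2 * M) / K = lP 10000 i * (u / K) + 2 * M / K := by ring
      linarith
    rw [sum_add_distrib, ← sum_mul, total 10000 hR, sum_const, card_univ, cardIdx,
      nsmul_eq_mul] at h2
    have h3 : u / K = 125 * J / 2 := by rw [huJ, hKd]; field_simp; ring
    have h4 : 2 * M / K = 2 * J / 10 ^ 8 := by rw [hM, hKd]; field_simp; norm_num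
    rw [h3, h4] at h2
    have h5 : ((∑ i, (S d i).card : ℕ) : ℝ) ≤ 3938 * J := by
      refine h2.trans ?_
      push_cast
      linarith
    have h6 : ∑ i, (S d i).card ≤ 3938 * J := by exact_mod_cast h5
    exact h1.trans h6
  · intro d x hx
    obtain ⟨z, hz, rfl⟩ := mem_image.1 hx
    obtain ⟨i, -, hi⟩ := mem_biUnion.1 hz
    have h1 := (hS2 d i z hi).2
    have h2 := mul_le_mul_of_nonneg_right (bounds 10000 hR i).2.2.1 hu0.le
    have h3 : (0 : ℝ) < J ^ 2 := by positivity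
    have h4 : (z : ℝ) + (J : ℝ) ^ 2 ≤ 5250008 * J ^ 2 := by
      rw [hM] at h1
      have h5 : (84 + 1 / ((10000 : ℕ) : ℝ)) * u = 21000025 / 4 * J ^ 2 := by
        rw [huJ]; push_cast; ring
      linarith
    have h5 : z + (J : ℤ) ^ 2 ≤ 5250008 * J ^ 2 := by exact_mod_cast h4
    rw [Int.toNat_le]
    push_cast
    exact h5
  · intro d j hdj w hw
    obtain ⟨g, hg0, hg1, hg2, hg3⟩ := crt0 (l d) (l j) (hl0 d) (hl0 j) (hcop d j hdj) w
    have hPi := near1 K (l d) (l j) hK0 (hl1 d) (hl1 j) (hl2 d) (hl2 j)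
    have hg0' : (0 : ℝ) ≤ g := by exact_mod_cast hg0
    have hg1' : (g : ℝ) < l d * l j := by exact_mod_cast hg1
    have hw' : (w : ℝ) < 5250000 * J ^ 2 := by exact_mod_cast hw
    have hK2 : 0 < K ^ 2 := by positivity
    obtain ⟨p, q, s, hs, h1, h2, h3, h4⟩ := design 10000 hR (w / u) (g / u) (by positivity)
      (by rw [div_lt_iff₀ hu0, huJ]; linarith) (by positivity)
      (by rw [div_lt_iff₀ hu0, hu]; have := (abs_le.1 hPi).2; linarith)
    obtain ⟨m, hm1, hm2⟩ := hc d (sP 10000 p / 16) j hdj.symm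
    obtain ⟨m', hm1', hm2'⟩ := hc j (sP 10000 q / 16) d hdj
    push_cast at hm2 hm2'
    have hz := near2 K (l d) (l j) C m _ hK0 (hl1 d) (hl1 j) (hl2 d) (hl2 j) hCK
      (bounds 10000 hR p).2.2.2.1 (bounds 10000 hR p).2.2.2.2 (by norm_num; exact hm2)
    have hz' := near2 K (l j) (l d) C m' _ hK0 (hl1 j) (hl1 d) (hl2 j) (hl2 d) hCK
      (bounds 10000 hR q).2.2.2.1 (bounds 10000 hR q).2.2.2.2 (by norm_num; exact hm2')
    rw [← hu] at hz hz'
    set y : ℤ := g + l j * m + l d * m' + s * (l d * l j) with hy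
    set Y : ℝ := g / u + sP 10000 p + sP 10000 q + 16 * s with hY
    have hs2 : |(s : ℝ) * (l d * l j - K ^ 2)| ≤ 6 * (3 * K ^ 2 / 10 ^ 13) := by
      rw [abs_mul]
      exact mul_le_mul hs hPi (abs_nonneg _) (by norm_num)
    have hdiff : (y : ℝ) - Y * u = (l j * m - sP 10000 p * u) + (l d * m' - sP 10000 q * u) +
        s * (l d * l j - K ^ 2) := by
      have h5 : K ^ 2 = 16 * u := by rw [hu]; ring
      rw [hy, hY, h5]; push_cast; field_simp; ring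
    have hy1 : Y * u - M ≤ y := by
      have := (abs_le.1 hz).1; have := (abs_le.1 hz').1; have := (abs_le.1 hs2).1
      linarith
    have hy2 : (y : ℝ) ≤ Y * u + M := by
      have := (abs_le.1 hz).2; have := (abs_le.1 hz').2; have := (abs_le.1 hs2).2
      linarith
    have e1 := mul_le_mul_of_nonneg_right h1 hu0.le
    have e2 := mul_le_mul_of_nonneg_right h2 hu0.le
    have e3 := mul_le_mul_of_nonneg_right h3 hu0.le
    have e4 := mul_le_mul_of_nonneg_right h4 hu0.le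
    have e5 : (Y + w / u) * u = Y * u + w := by field_simp
    rw [e5] at e3 e4
    have hyS : y ∈ S j q := by
      refine hS3 j q y (by linarith) (by linarith) ?_
      have : y - c j (sP 10000 q / 16) = g + (l d * m' - c j (sP 10000 q / 16)) +
          l j * (m + s * l d) := by rw [hy]; ring
      rw [this]
      exact (hg3.add hm1').add (Dvd.intro _ rfl)
    have hxS : y + w ∈ S d p := by
      refine hS3 d p (y + w) (by push_cast; linarith) (by push_cast; linarith) ?_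
      have : y + w - c d (sP 10000 p / 16) = (g + w) + (l j * m - c d (sP 10000 p / 16)) +
          l d * (m' + s * l j) := by rw [hy]; ring
      rw [this]
      exact (hg2.add hm1).add (Dvd.intro _ rfl)
    refine ⟨_, mem_image.2 ⟨y + w, mem_biUnion.2 ⟨p, mem_univ _, hxS⟩, rfl⟩,
      _, mem_image.2 ⟨y, mem_biUnion.2 ⟨q, mem_univ _, hyS⟩, rfl⟩, ?_⟩
    have := hlow j q y hyS
    omega

end Pool.Agent.MP_f485b3_co.H43
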