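import Mathlib

set_option autoImplicit false

/-! Families of nearly equal pairwise coprime moduli with freely prescribed phases. -/

namespace Pool.Agent.MP_f485b3_co.H43

open Finset

/-- Numbers whose differences have private large prime factors. -/
theorem priv (κ B : ℕ) : ∃ (e : Fin κ → ℕ) (P : Fin κ → Fin κ → ℕ),
    (∀ d j, (P d j).Prime ∧ B ≤ P d j) ∧
    (∀ d j, (P d j : ℤ) ∣ (e j : ℤ) - e d) ∧
    (∀ d j i, i ≠ d → i ≠ j → ¬ (P d j : ℤ) ∣ (e i : ℤ) - e d) := by
  classical
  let P : Fin κ × Fin κ → ℕ := fun x => Nat.nth Nat.Prime (B + κ + (finProdFinEquiv x : ℕ))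
  have hP : ∀ x, (P x).Prime := fun x => Nat.prime_nth_prime _
  have hPl : ∀ x, B + κ ≤ P x := fun x => by
    have := Nat.add_two_le_nth_prime (B + κ + (finProdFinEquiv x : ℕ))
    simp only [P]; omega
  have hinj : Function.Injective P := by
    intro x y h
    have := Nat.nth_injective Nat.infinite_setOfPred_prime h
    have h2 : (finProdFinEquiv x : ℕ) = (finProdFinEquiv y : ℕ) := by omega
    exact finProdFinEquiv.injective (Fin.ext h2)
  have hpair : Set.Pairwise ((univ : Finset (Fin κ × Fin κ)) : Set (Fin κ × Fin κ))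
      (Function.onFun Nat.Coprime P) := by
    intro x _ y _ hxy
    exact (Nat.coprime_primes (hP x) (hP y)).2 (fun h => hxy (hinj h))
  have hex : ∀ i : Fin κ, ∃ n : ℕ, ∀ x : Fin κ × Fin κ,
      n ≡ (if i = x.2 then (x.1 : ℕ) else (i : ℕ)) [MOD P x] := by
    intro i
    obtain ⟨n, hn⟩ := Nat.chineseRemainderOfFinset
      (fun x : Fin κ × Fin κ => if i = x.2 then (x.1 : ℕ) else (i : ℕ)) P univ
      (fun x _ => (hP x).ne_zero) hpair
    exact ⟨n, fun x => hn x (mem_univ _)⟩
  choose e he using hex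
  have hd : ∀ d j, e d ≡ (d : ℕ) [MOD P (d, j)] := by
    intro d j
    have := he d (d, j)
    simpa using this
  refine ⟨e, fun d j => P (d, j), fun d j => ⟨hP _, le_trans (Nat.le_add_right _ _) (hPl (d, j))⟩, ?_, ?_⟩
  · intro d j
    have h1 := he j (d, j)
    simp only [if_true] at h1
    exact ((hd d j).trans h1.symm).dvd
  · intro d j i hid hij hdv
    have h1 := he i (d, j)
    simp only [hij, if_false] at h1
    have h2 : e d ≡ e i [MOD P (d, j)] := (Nat.modEq_iff_dvd).2 hdv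
    have h3 : (d : ℕ) ≡ (i : ℕ) [MOD P (d, j)] := ((hd d j).symm.trans h2).trans h1
    have h4 := hPl (d, j)
    have h5 : (d : ℕ) = i := Nat.ModEq.eq_of_lt_of_lt h3 (by omega) (by omega)
    exact hid (Fin.ext h5.symm)

theorem cop (a b F : ℕ) (hab : a ≤ b) (h : b - a ∣ F) : Nat.Coprime (a * F + 1) (b * F + 1) := by
  rw [Nat.coprime_iff_gcd_eq_one]
  by_contra hne
  obtain ⟨q, hq, hqd⟩ := Nat.exists_prime_and_dvd hne
  have h1 : q ∣ a * F + 1 := hqd.trans (Nat.gcd_dvd_left _ _)
  have h2 : q ∣ b * F + 1 := hqd.trans (Nat.gcd_dvd_right _ _)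
  have h3 : q ∣ (b - a) * F := by
    have : b * F + 1 = (a * F + 1) + (b - a) * F := by
      rw [Nat.sub_mul]
      have := Nat.mul_le_mul_right F hab
      omega
    rw [this] at h2
    exact (Nat.dvd_add_right h1).1 h2
  have h4 : q ∣ F := by
    rcases (Nat.Prime.dvd_mul hq).1 h3 with h5 | h5
    · exact h5.trans h
    · exact h5
  have h5 : q ∣ 1 := (Nat.dvd_add_right (Dvd.dvd.mul_left h4 a)).1 h1
  exact hq.one_lt.ne' (Nat.dvd_one.1 h5)

theorem fam (κ B : ℕ) (hB : 0 < B) : ∃ F C : ℕ, 0 < F ∧ ∀ k : ℕ, ∃ l : Fin κ → ℕ,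
    (∀ d, k * F < l d ∧ l d ≤ k * F + C) ∧
    (∀ d j, d ≠ j → Nat.Coprime (l d) (l j)) ∧
    ∀ (d : Fin κ) (θ : ℝ), ∃ c : ℤ, ∀ j, j ≠ d → ∃ m : ℤ,
      (l d : ℤ) ∣ l j * m - c ∧ |(m : ℝ) - θ * l d| ≤ (l d : ℝ) / B + C := by
  classical
  obtain ⟨e, P, hP, hP1, hP2⟩ := priv κ B
  have hne : ∀ d j, j ≠ d → (e j : ℤ) - e d ≠ 0 := by
    intro d j h h0
    exact hP2 d d j h h (by rw [h0]; exact dvd_zero _)
  set E := ∑ i, e i with hE
  have heE : ∀ i, e i ≤ E := fun i =>
    Finset.single_le_sum (f := e) (fun _ _ => Nat.zero_le _) (mem_univ i)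
  set F := E.factorial with hF
  have hF0 : 0 < F := Nat.factorial_pos _
  have hdF : ∀ d j, j ≠ d → ((e j : ℤ) - e d) ∣ (F : ℤ) := by
    intro d j h
    rw [← Int.natAbs_dvd]
    refine Int.natCast_dvd_natCast.2 (Nat.dvd_factorial ?_ ?_)
    · exact Int.natAbs_pos.2 (hne d j h)
    · have := heE d; have := heE j; omega
  refine ⟨F, E * F + F + 1, hF0, fun k => ⟨fun d => (k + e d) * F + 1, ?_, ?_, ?_⟩⟩
  · intro d
    have := Nat.mul_le_mul_right F (heE d)
    simp only [Nat.add_mul]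
    omega
  · intro d j hdj
    have key : ∀ a b : Fin κ, a ≠ b → e a ≤ e b →
        Nat.Coprime ((k + e a) * F + 1) ((k + e b) * F + 1) := by
      intro a b hab hle
      refine cop _ _ _ (by omega) ?_
      have := hdF a b hab.symm
      rw [← Int.natCast_dvd_natCast]
      have h2 : ((k + e b - (k + e a) : ℕ) : ℤ) = (e b : ℤ) - e a := by omega
      rw [h2]; exact this
    rcases le_total (e d) (e j) with h | h
    · exact key d j hdj h
    · exact (key j d hdj.symm h).symm
  · intro d θ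
    choose G hG using hP1 d
    let τ : Fin κ → ℤ := fun j => ⌊θ * P d j⌋
    have hc : ∀ j, ∃ c : ℤ, ((e j : ℤ) - e d) ∣ c + τ j * G j ∧
        ∀ i, i ≠ d → i ≠ j → ((e i : ℤ) - e d) ∣ c := by
      intro j
      set A : ℤ := ∏ i ∈ univ.filter (fun i => i ≠ d ∧ i ≠ j), ((e i : ℤ) - e d) with hA
      have hpr : Prime (P d j : ℤ) := Nat.prime_iff_prime_int.1 (hP d j).1
      have hnd : ¬ (P d j : ℤ) ∣ A := by
        intro h
        obtain ⟨i, hi, hdv⟩ := hpr.exists_mem_finset_dvd h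
        simp only [mem_filter, mem_univ, true_and] at hi
        exact hP2 d j i hi.1 hi.2 hdv
      obtain ⟨a, b, hab⟩ := (hpr.irreducible.coprime_iff_not_dvd).2 hnd
      refine ⟨-(G j * A * b * τ j), ?_, ?_⟩
      · rw [hG j]
        refine ⟨a * τ j, ?_⟩
        linear_combination (-(τ j * G j)) * hab
      · intro i h1 h2
        have : ((e i : ℤ) - e d) ∣ A :=
          Finset.dvd_prod_of_mem _ (by simp [h1, h2])
        exact (dvd_neg).2 (((this.mul_left _).mul_right _).mul_right _)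
    choose c hc1 hc2 using hc
    set c0 : ℤ := (∑ j ∈ univ.erase d, c j) % F with hc0
    have hc0a : 0 ≤ c0 := Int.emod_nonneg _ (by omega)
    have hc0b : c0 < F := Int.emod_lt_of_pos _ (by omega)
    refine ⟨F * c0, fun j hj => ?_⟩
    have h1 : ((e j : ℤ) - e d) ∣ c0 + τ j * G j := by
      have h2 : ((e j : ℤ) - e d) ∣ ∑ i ∈ (univ.erase d).erase j, c i := by
        refine Finset.dvd_sum fun i hi => ?_
        simp only [mem_erase] at hi
        exact hc2 i j hj (fun h => hi.1 h.symm)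
      have h3 : ∑ i ∈ univ.erase d, c i = c j + ∑ i ∈ (univ.erase d).erase j, c i :=
        (Finset.add_sum_erase _ _ (by simp [hj])).symm
      have h4 : c0 + τ j * G j = (c j + τ j * G j) + ∑ i ∈ (univ.erase d).erase j, c i
          - F * ((∑ j ∈ univ.erase d, c j) / F) := by
        rw [hc0, Int.emod_def, h3]; ring
      rw [h4]
      exact ((hc1 j).add h2).sub ((hdF d j hj).mul_right _)
    set L : ℤ := (((k + e d) * F + 1 : ℕ) : ℤ) with hL
    have h5 : ((e j : ℤ) - e d) ∣ c0 + τ j * G j * L := by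
      have : c0 + τ j * G j * L = (c0 + τ j * G j) + F * (τ j * G j * (k + e d)) := by
        rw [hL]; push_cast; ring
      rw [this]
      exact h1.add ((hdF d j hj).mul_right _)
    obtain ⟨m, hm⟩ := h5
    refine ⟨m, ⟨m + F * τ j * G j, ?_⟩, ?_⟩
    · have h6 : ((((k + e j) * F + 1 : ℕ) : ℤ)) = L + F * ((e j : ℤ) - e d) := by
        rw [hL]; push_cast; ring
      rw [h6]
      linear_combination (-(F : ℤ)) * hm
    · have hPp : (0 : ℝ) < P d j := by exact_mod_cast (hP d j).1.pos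
      have hBP : (B : ℝ) ≤ P d j := by exact_mod_cast (hP d j).2
      have hB0 : (0 : ℝ) < B := by exact_mod_cast hB
      have hε : ((e j : ℤ) - e d : ℤ) ≠ 0 := hne d j hj
      have hG0 : G j ≠ 0 := by
        intro h; rw [hG j, h] at hε; simp at hε
      have hG0' : ((G j : ℤ) : ℝ) ≠ 0 := by exact_mod_cast hG0
      have hG1 : (1 : ℝ) ≤ |((G j : ℤ) : ℝ)| := by
        have := Int.one_le_abs hG0
        exact_mod_cast this
      have hP1' : (1 : ℝ) ≤ P d j := by exact_mod_cast (hP d j).1.one_le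
      have hmR : (m : ℝ) = (c0 : ℝ) / (P d j * G j) + (τ j : ℝ) / P d j * L := by
        have : (c0 : ℝ) + τ j * G j * L = (P d j * G j) * m := by
          rw [hG j] at hm; exact_mod_cast hm
        field_simp
        linarith
      have hL0 : (0 : ℝ) ≤ (L : ℝ) := by rw [hL]; positivity
      have hLc : ((((k + e d) * F + 1 : ℕ) : ℝ)) = (L : ℝ) := by rw [hL]; norm_cast
      simp only [hLc]
      have ha : |(c0 : ℝ) / (P d j * G j)| ≤ F := by
        rw [abs_div, abs_mul, abs_of_pos hPp, abs_of_nonneg (by exact_mod_cast hc0a)]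
        have h7 : (1 : ℝ) ≤ P d j * |((G j : ℤ) : ℝ)| := by nlinarith
        have h8 : (c0 : ℝ) ≤ F := by exact_mod_cast hc0b.le
        have h9 : (0 : ℝ) ≤ c0 := by exact_mod_cast hc0a
        exact (div_le_self h9 h7).trans h8
      have hb : |(τ j : ℝ) / P d j - θ| ≤ 1 / B := by
        have h7 : (τ j : ℝ) ≤ θ * P d j := Int.floor_le _
        have h8 : θ * P d j < τ j + 1 := Int.lt_floor_add_one _
        have h9 : (τ j : ℝ) / P d j - θ = ((τ j : ℝ) - θ * P d j) / P d j := by field_simp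
        rw [h9, abs_div, abs_of_pos hPp]
        refine le_trans ?_ (one_div_le_one_div_of_le hB0 hBP)
        refine div_le_div_of_nonneg_right ?_ hPp.le
        rw [abs_le]; constructor <;> linarith
      have hsplit : (m : ℝ) - θ * L = (c0 : ℝ) / (P d j * G j) + ((τ j : ℝ) / P d j - θ) * L := by
        rw [hmR]; ring
      rw [hsplit]
      refine (abs_add_le _ _).trans ?_
      rw [abs_mul, abs_of_nonneg hL0]
      have h10 : |(τ j : ℝ) / P d j - θ| * L ≤ 1 / B * L := mul_le_mul_of_nonneg_right hb hL0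
      have h11 : (F : ℝ) ≤ ((E * F + F + 1 : ℕ) : ℝ) := by exact_mod_cast (by omega)
      have h12 : 1 / (B : ℝ) * L = L / B := by ring
      linarith

end Pool.Agent.MP_f485b3_co.H43
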