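import Pool.Agent.MP_f485b3_co.H43.Ruler

set_option autoImplicit false

/-! From sets of marks to lists of segment lengths. -/

namespace Pool.Agent.MP_f485b3_co.H43

open Finset

/-- complete rulers -/
def Comp (g : List ℕ) : Prop :=
  (∀ x ∈ g, 0 < x) ∧
    ∀ k ≤ g.sum, ∃ i ≤ g.length, ∃ j ≤ g.length, (g.take i).sum + k = (g.take j).sum

theorem toList (A : Finset ℕ) : 0 ∈ A → ∃ g : List ℕ, (∀ x ∈ g, 0 < x) ∧ g.length + 1 = A.card ∧
    g.sum ∈ A ∧ (∀ x ∈ A, x ≤ g.sum) ∧ ∀ x ∈ A, ∃ i ≤ g.length, (g.take i).sum = x := by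
  classical
  induction A using Finset.induction_on_max with
  | empty => intro h; simp at h
  | insert a s hs ih =>
    intro h0
    have has : a ∉ s := fun h => lt_irrefl _ (hs a h)
    by_cases h : 0 ∈ s
    · obtain ⟨g, h1, h2, h3, h4, h5⟩ := ih h
      have h6 : g.sum < a := hs _ h3
      have h7 : (g ++ [a - g.sum]).sum = a := by simp; omega
      refine ⟨g ++ [a - g.sum], ?_, ?_, ?_, ?_, ?_⟩
      · intro x hx
        rcases List.mem_append.1 hx with hx | hx
        · exact h1 x hx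
        · rw [List.mem_singleton.1 hx]; omega
      · rw [card_insert_of_notMem has, ← h2]; simp
      · rw [h7]; exact mem_insert_self _ _
      · intro x hx
        rw [h7]
        rcases mem_insert.1 hx with rfl | hx
        · exact le_rfl
        · exact (hs x hx).le
      · intro x hx
        rcases mem_insert.1 hx with rfl | hx
        · exact ⟨_, le_rfl, by rw [List.take_length, h7]⟩
        · obtain ⟨i, hi, h8⟩ := h5 x hx
          exact ⟨i, by simp; omega, by rw [List.take_append_of_le_length hi, h8]⟩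
    · have ha : a = 0 := by
        rcases mem_insert.1 h0 with h1 | h1
        · exact h1.symm
        · exact absurd h1 h
      subst ha
      have hs0 : s = ∅ := by
        rw [eq_empty_iff_forall_notMem]
        intro x hx
        exact absurd (hs x hx) (Nat.not_lt_zero _)
      subst hs0
      exact ⟨[], by simp, by simp, by simp, by simp, by simp⟩

theorem Comp.snoc {g : List ℕ} (h : Comp g) : Comp (g ++ [1]) := by
  refine ⟨?_, ?_⟩
  · intro x hx
    rcases List.mem_append.1 hx with hx | hx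
    · exact h.1 x hx
    · rw [List.mem_singleton.1 hx]; exact Nat.one_pos
  · intro k hk
    have h1 : (g ++ [1]).sum = g.sum + 1 := by simp
    rcases Nat.lt_or_ge g.sum k with h2 | h2
    · refine ⟨0, Nat.zero_le _, _, le_rfl, ?_⟩
      rw [List.take_length]; simp only [List.take_zero, List.sum_nil]; omega
    · obtain ⟨i, hi, j, hj, h3⟩ := h.2 k h2
      refine ⟨i, by simp; omega, j, by simp; omega, ?_⟩
      rw [List.take_append_of_le_length hi, List.take_append_of_le_length hj, h3]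

theorem Comp.pad {g : List ℕ} (h : Comp g) (m : ℕ) :
    ∃ g' : List ℕ, Comp g' ∧ g'.length = g.length + m ∧ g'.sum = g.sum + m := by
  induction m with
  | zero => exact ⟨g, h, rfl, rfl⟩
  | succ m ih =>
    obtain ⟨g', h1, h2, h3⟩ := ih
    exact ⟨g' ++ [1], h1.snoc, by simp; omega, by simp; omega⟩

theorem Comp.bound {g : List ℕ} (h : Comp g) : g.sum ≤ (g.length + 1) ^ 2 := by
  classical
  have h1 : range (g.sum + 1) ⊆ (range (g.length + 1) ×ˢ range (g.length + 1)).image
      (fun x => (g.take x.2).sum - (g.take x.1).sum) := by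
    intro k hk
    obtain ⟨i, hi, j, hj, h2⟩ := h.2 k (Nat.lt_succ_iff.1 (mem_range.1 hk))
    refine mem_image.2 ⟨(i, j), ?_, by simp only; omega⟩
    simp only [mem_product, mem_range]; omega
  have h2 := (card_le_card h1).trans card_image_le
  rw [card_product, card_range, card_range] at h2
  nlinarith

/-- Complete rulers with `N` segments and length at least `N ^ 2 / 2.98`. -/
theorem long (N0 : ℕ) : ∃ g : List ℕ, Comp g ∧ N0 ≤ g.length ∧ 50 * g.length ^ 2 ≤ 149 * g.sum := by
  obtain ⟨N, L, h0, h1, A, h2, h3, h4, h5, h6⟩ := marks N0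
  obtain ⟨g, g1, g2, g3, g4, g5⟩ := toList A h3
  have hs : g.sum = L := le_antisymm (h5 _ g3) (g4 _ h4)
  have hc : Comp g := by
    refine ⟨g1, fun k hk => ?_⟩
    obtain ⟨x, hx, y, hy, h⟩ := h6 k (hs ▸ hk)
    obtain ⟨i, hi, hi'⟩ := g5 x hx
    obtain ⟨j, hj, hj'⟩ := g5 y hy
    exact ⟨i, hi, j, hj, by rw [hi', hj', h]⟩
  obtain ⟨g', k1, k2, k3⟩ := hc.pad (N - g.length)
  have h7 : g'.length = N := by omega
  exact ⟨g', k1, by omega, by rw [h7]; omega⟩

/-- For every large `n` a complete ruler with `n` segments and length at least `n ^ 2 / 2.99`. -/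
theorem longAll : ∃ n0 : ℕ, ∀ n, n0 ≤ n →
    ∃ g : List ℕ, Comp g ∧ g.length = n ∧ 100 * n ^ 2 ≤ 299 * g.sum := by
  obtain ⟨c, k0, hc, h⟩ := marks1
  refine ⟨c * (k0 + 1000), fun n hn => ?_⟩
  have hk : k0 + 1000 ≤ n / c := (Nat.le_div_iff_mul_le hc).2 (by rw [Nat.mul_comm]; exact hn)
  obtain ⟨L, h1, A, h2, h3, h4, h5, h6⟩ := h (n / c) (by omega)
  have e1 := Nat.div_add_mod n c
  have e2 := Nat.mod_lt n hc
  have e3 : c * 1000 ≤ c * (n / c) := Nat.mul_le_mul_left _ (by omega)
  generalize c * (n / c) = N at h1 h2 e1 e3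
  obtain ⟨g, g1, g2, g3, g4, g5⟩ := toList A h3
  have hs : g.sum = L := le_antisymm (h5 _ g3) (g4 _ h4)
  have hc : Comp g := by
    refine ⟨g1, fun k hk => ?_⟩
    obtain ⟨x, hx, y, hy, h⟩ := h6 k (hs ▸ hk)
    obtain ⟨i, hi, hi'⟩ := g5 x hx
    obtain ⟨j, hj, hj'⟩ := g5 y hy
    exact ⟨i, hi, j, hj, by rw [hi', hj', h]⟩
  obtain ⟨g', k1, k2, k3⟩ := hc.pad (n - g.length)
  refine ⟨g', k1, by omega, ?_⟩
  have e4 : 1000 * n ≤ 1001 * N := by omega
  have e5 : (1000 * n) ^ 2 ≤ (1001 * N) ^ 2 := Nat.pow_le_pow_left e4 2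
  have e6 : (1000 * n) ^ 2 = 1000000 * n ^ 2 := by ring
  have e7 : (1001 * N) ^ 2 = 1002001 * N ^ 2 := by ring
  omega

/-- An optimal ruler at least as long as a given complete ruler, with as many segments. -/
theorem optimal {g0 : List ℕ} (h0 : Comp g0) : ∃ g : List ℕ, Comp g ∧ g.length = g0.length ∧
    g0.sum ≤ g.sum ∧ (∀ h, Comp h → h.sum = g.sum → g.length ≤ h.length) ∧
    (∀ h, Comp h → h.length = g.length → h.sum ≤ g.sum) := by
  classical
  let P : ℕ → Prop := fun L => ∃ g : List ℕ, Comp g ∧ g.length = g0.length ∧ g.sum = L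
  have hP : P g0.sum := ⟨g0, h0, rfl, rfl⟩
  obtain ⟨g, h1, h2, h3⟩ : P (Nat.findGreatest P ((g0.length + 1) ^ 2)) :=
    Nat.findGreatest_spec h0.bound hP
  have hmax : ∀ h, Comp h → h.length = g.length → h.sum ≤ g.sum := by
    intro h hh hl
    rw [h3]
    refine Nat.le_findGreatest ?_ ⟨h, hh, hl.trans h2, rfl⟩
    have := hh.bound
    rwa [hl, h2] at this
  refine ⟨g, h1, h2, hmax g0 h0 h2.symm, ?_, hmax⟩
  intro h hh hs
  by_contra hlt
  obtain ⟨g', k1, k2, k3⟩ := hh.pad (g.length - h.length)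
  have := hmax g' k1 (by omega)
  omega

theorem wich (r s : ℕ) (g : List ℕ)
    (h : g = List.replicate r 1 ++ [r + 1] ++ List.replicate r (2 * r + 1) ++
      List.replicate s (4 * r + 3) ++ List.replicate (r + 1) (2 * r + 2) ++ List.replicate r 1) :
    3 * g.sum ≤ g.length ^ 2 + 3 * g.length := by
  have h1 : g.length = 4 * r + s + 2 := by rw [h]; simp; omega
  have h2 : g.sum = 4 * r * (r + s + 2) + 3 * (s + 1) := by rw [h]; simp; ring
  rw [h1, h2]
  have h3 : (0 : ℤ) ≤ (2 * r - s + 1) ^ 2 := sq_nonneg _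
  zify
  nlinarith

end Pool.Agent.MP_f485b3_co.H43
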