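import Pool.Agent.MP_f485b3_co.H43.Cls

set_option autoImplicit false

/-! Complete rulers with fewer than `sqrt (2.98 L)` marks. -/

namespace Pool.Agent.MP_f485b3_co.H43

open Finset

theorem ruzsa (p : ℕ) (hp : p.Prime) : ∃ ρ : Fin (p - 1) → ℕ, (∀ a, ρ a < (p - 1) * p) ∧
    ∀ v : ℕ, ¬ p ∣ v → ¬ (p - 1) ∣ v → ∃ a b, a ≠ b ∧ ρ a ≡ ρ b + v [MOD (p - 1) * p] := by
  classical
  have := Fact.mk hp
  have h2 := hp.two_le
  have hcop : Nat.Coprime (p - 1) p := by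
    have : p = (p - 1) + 1 := by omega
    conv_rhs => rw [this]
    simp
  obtain ⟨g, hg⟩ := IsCyclic.exists_generator (α := (ZMod p)ˣ)
  have hord : orderOf g = p - 1 := by
    rw [orderOf_eq_card_of_forall_mem_zpowers hg, Nat.card_eq_fintype_card, ZMod.card_units]
  let ρ : Fin (p - 1) → ℕ := fun a =>
    (Nat.chineseRemainder hcop a ((g ^ (a : ℕ) : (ZMod p)ˣ) : ZMod p).val : ℕ)
  have hρ1 : ∀ a, ρ a ≡ (a : ℕ) [MOD (p - 1)] := fun a => (Nat.chineseRemainder hcop _ _).2.1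
  have hρ2 : ∀ a, ((ρ a : ℕ) : ZMod p) = ((g ^ (a : ℕ) : (ZMod p)ˣ) : ZMod p) := by
    intro a
    have := (ZMod.natCast_eq_natCast_iff _ _ _).2
      (Nat.chineseRemainder hcop a ((g ^ (a : ℕ) : (ZMod p)ˣ) : ZMod p).val).2.2
    rw [ZMod.natCast_zmod_val] at this
    exact this
  refine ⟨ρ, fun a => Nat.chineseRemainder_lt_mul hcop _ _ (by omega) (by omega), ?_⟩
  intro v hv1 hv2
  have hv0 : (v : ZMod p) ≠ 0 := fun h => hv1 ((ZMod.natCast_eq_zero_iff _ _).1 h)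
  have hgv : ((g ^ v : (ZMod p)ˣ) : ZMod p) - 1 ≠ 0 := by
    intro h
    apply hv2
    rw [← hord, orderOf_dvd_iff_pow_eq_one]
    exact Units.ext (by simpa using sub_eq_zero.1 h)
  have hw : (v : ZMod p) * (((g ^ v : (ZMod p)ˣ) : ZMod p) - 1)⁻¹ ≠ 0 :=
    mul_ne_zero hv0 (inv_ne_zero hgv)
  have hmem : Units.mk0 _ hw ∈ Submonoid.powers g := mem_powers_iff_mem_zpowers.2 (hg _)
  obtain ⟨b, hb⟩ := hmem
  have hpos : 0 < p - 1 := by omega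
  have hb' : g ^ (b % (p - 1)) = g ^ b := by rw [← hord]; exact pow_mod_orderOf _ _
  have ha' : g ^ ((b + v) % (p - 1)) = g ^ b * g ^ v := by
    rw [← pow_add, ← hord]; exact pow_mod_orderOf _ _
  refine ⟨⟨(b + v) % (p - 1), Nat.mod_lt _ hpos⟩, ⟨b % (p - 1), Nat.mod_lt _ hpos⟩, ?_, ?_⟩
  · intro h
    have h1 : (b + v) % (p - 1) = b % (p - 1) := congrArg Fin.val h
    have h3 : b + v ≡ b + 0 [MOD (p - 1)] := h1
    exact hv2 ((Nat.modEq_zero_iff_dvd).1 (Nat.ModEq.add_left_cancel' b h3))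
  · refine (Nat.modEq_and_modEq_iff_modEq_mul hcop).1 ⟨?_, ?_⟩
    · refine (hρ1 _).trans ((Nat.mod_modEq _ _).trans ?_)
      exact (((hρ1 _).trans (Nat.mod_modEq _ _)).add_right v).symm
    · rw [← ZMod.natCast_eq_natCast_iff]
      push_cast
      rw [hρ2, hρ2]
      simp only [ha', hb']
      have h4 : ((g ^ b : (ZMod p)ˣ) : ZMod p) =
          (v : ZMod p) * (((g ^ v : (ZMod p)ˣ) : ZMod p) - 1)⁻¹ := by
        have : g ^ b = Units.mk0 _ hw := hb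
        rw [this]; rfl
      rw [Units.val_mul, h4]
      field_simp
      ring

theorem ruzsa1 (κ : ℕ) (hp : (κ + 1).Prime) : ∃ ρ : Fin κ → ℕ, (∀ a, ρ a < κ * (κ + 1)) ∧
    ∀ v : ℕ, ¬ (κ + 1) ∣ v → ¬ κ ∣ v → ∃ a b, a ≠ b ∧ ρ a ≡ ρ b + v [MOD κ * (κ + 1)] :=
  ruzsa (κ + 1) hp

theorem mult (a m L : ℕ) (ha : 0 < a) (hm : 0 < m) (h : a * m ≤ L) : ∃ S : Finset ℕ,
    S.card ≤ m + L / (a * m) + 1 ∧ (∀ x ∈ S, x ≤ L) ∧
    ∀ v, a ∣ v → v + a * m ≤ L → ∃ x ∈ S, ∃ y ∈ S, x + v = y := by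
  classical
  refine ⟨(range m).image (fun i => a * i) ∪ (range (L / (a * m) + 1)).image (fun j => a * m * j),
    ?_, ?_, ?_⟩
  · refine (card_union_le _ _).trans ?_
    have h1 := card_image_le (s := range m) (f := fun i => a * i)
    have h2 := card_image_le (s := range (L / (a * m) + 1)) (f := fun j => a * m * j)
    rw [card_range] at h1 h2
    omega
  · intro x hx
    rcases mem_union.1 hx with hx | hx
    · obtain ⟨i, hi, rfl⟩ := mem_image.1 hx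
      exact (Nat.mul_le_mul_left a (mem_range.1 hi).le).trans h
    · obtain ⟨i, hi, rfl⟩ := mem_image.1 hx
      exact (Nat.mul_le_mul_left _ (Nat.lt_succ_iff.1 (mem_range.1 hi))).trans
        (Nat.mul_div_le _ _)
  · rintro v ⟨w, rfl⟩ hv
    have h1 := Nat.div_add_mod (w + m - 1) m
    have h2 := Nat.mod_lt (w + m - 1) hm
    set j := (w + m - 1) / m with hj
    have h3 : w ≤ m * j := by omega
    have h4 : m * j < w + m := by omega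
    refine ⟨a * (m * j - w), mem_union_left _ (mem_image.2 ⟨_, mem_range.2 (by omega), rfl⟩),
      a * m * j, mem_union_right _ (mem_image.2 ⟨j, mem_range.2 ?_, rfl⟩), ?_⟩
    · rw [Nat.lt_succ_iff, Nat.le_div_iff_mul_le (Nat.mul_pos ha hm)]
      have := Nat.mul_le_mul_left a h4.le
      nlinarith
    · rw [← Nat.mul_add, Nat.sub_add_cancel h3, Nat.mul_assoc]

theorem top (m L : ℕ) (hm : 0 < m) (h : m * m ≤ L) : ∃ S : Finset ℕ,
    S.card ≤ 2 * m ∧ 0 ∈ S ∧ L ∈ S ∧ (∀ x ∈ S, x ≤ L) ∧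
    ∀ v, v ≤ L → L < v + m * m → ∃ x ∈ S, ∃ y ∈ S, x + v = y := by
  classical
  refine ⟨range m ∪ (range m).image (fun j => L - m * j), ?_, ?_, ?_, ?_, ?_⟩
  · refine (card_union_le _ _).trans ?_
    have h2 := card_image_le (s := range m) (f := fun j => L - m * j)
    rw [card_range] at h2 ⊢
    omega
  · exact mem_union_left _ (mem_range.2 hm)
  · exact mem_union_right _ (mem_image.2 ⟨0, mem_range.2 hm, by simp⟩)
  · intro x hx
    rcases mem_union.1 hx with hx | hx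
    · have := mem_range.1 hx
      nlinarith
    · obtain ⟨i, -, rfl⟩ := mem_image.1 hx
      exact Nat.sub_le _ _
  · intro v hv1 hv2
    have h1 := Nat.div_add_mod (L - v) m
    have h2 := Nat.mod_lt (L - v) hm
    refine ⟨(L - v) % m, mem_union_left _ (mem_range.2 h2), L - m * ((L - v) / m),
      mem_union_right _ (mem_image.2 ⟨_, mem_range.2 ?_, rfl⟩), by omega⟩
    rw [Nat.div_lt_iff_lt_mul hm]; omega

theorem marks1 : ∃ c k0 : ℕ, 0 < c ∧ ∀ k, k0 ≤ k → ∃ L : ℕ, 50 * (c * k) ^ 2 ≤ 149 * L ∧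
    ∃ A : Finset ℕ, A.card ≤ c * k ∧ 0 ∈ A ∧ L ∈ A ∧ (∀ x ∈ A, x ≤ L) ∧
      ∀ v ≤ L, ∃ x ∈ A, ∃ y ∈ A, x + v = y := by
  classical
  obtain ⟨p, hp6, hp⟩ := Nat.exists_infinite_primes (10 ^ 6 + 1)
  obtain ⟨κ, rfl⟩ : ∃ κ, p = κ + 1 := ⟨p - 1, by omega⟩
  obtain ⟨ρ, hρ1, hρ2⟩ := ruzsa1 κ hp
  obtain ⟨F, k0, hF, hcls⟩ := cls1 κ
  refine ⟨3955 * (κ + 1) * F, k0 + 2, by positivity, fun k hk => ?_⟩
  obtain ⟨X, hX1, hX2, hX3⟩ := hcls k (by omega) _ rfl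
  have hJ : k ≤ k * F := Nat.le_mul_of_pos_right _ hF
  have hN : 3955 * (κ + 1) * F * k = 3955 * ((κ + 1) * (k * F)) := by ring
  rw [hN]
  generalize k * F = J at hX1 hX2 hX3 hJ
  clear hN hcls
  have hκ : 10 ^ 6 ≤ κ := by omega
  set Q := κ * (κ + 1) with hQ
  set L := Q * (5250008 * J ^ 2 + 1) with hL
  have hJ2 : 2 ≤ J := by omega
  have hJ4 : 2 * J ≤ J ^ 2 := by nlinarith
  have hQ1 : 10 ^ 6 * (κ + 1) ≤ Q := Nat.mul_le_mul_right _ hκ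
  have hQ2 : Q ≤ (κ + 1) ^ 2 := by rw [hQ]; nlinarith
  have hQ3 : (κ + 1) ^ 2 ≤ 2 * Q := by rw [hQ]; nlinarith
  have hQJ : Q * J ^ 2 ≤ (κ + 1) ^ 2 * J ^ 2 := Nat.mul_le_mul_right _ hQ2
  have hQJ' : (κ + 1) ^ 2 * J ^ 2 ≤ 2 * Q * J ^ 2 := Nat.mul_le_mul_right _ hQ3
  have hQJ2 : Q * 4 ≤ Q * J ^ 2 := Nat.mul_le_mul_left _ (by omega)
  have hm1 : (κ + 1) * (2 * 10 ^ 6 * J) ≤ Q * J ^ 2 := by
    calc (κ + 1) * (2 * 10 ^ 6 * J) = (10 ^ 6 * (κ + 1)) * (2 * J) := by ring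
      _ ≤ Q * J ^ 2 := Nat.mul_le_mul hQ1 hJ4
  have hm1' : κ * (2 * 10 ^ 6 * J) ≤ (κ + 1) * (2 * 10 ^ 6 * J) :=
    Nat.mul_le_mul_right _ (by omega)
  have hL' : L = 5250008 * (Q * J ^ 2) + Q := by rw [hL]; ring
  have hT : (3 * (κ + 1) * J) * (3 * (κ + 1) * J) = 9 * ((κ + 1) ^ 2 * J ^ 2) := by ring
  obtain ⟨S1, a1, a2, a3⟩ := mult (κ + 1) (2 * 10 ^ 6 * J) L (by omega) (by omega) (by omega)
  obtain ⟨S2, b1, b2, b3⟩ := mult κ (2 * 10 ^ 6 * J) L (by omega) (by omega) (by omega)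
  obtain ⟨S3, c1, c2, c3, c4, c5⟩ := top (3 * (κ + 1) * J) L (by positivity) (by
    rw [hT]; nlinarith)
  have hd2 : L / (κ * (2 * 10 ^ 6 * J)) ≤ 3 * ((κ + 1) * J) := by
    apply Nat.div_le_of_le_mul
    have : κ * (2 * 10 ^ 6 * J) * (3 * ((κ + 1) * J)) = 6000000 * (Q * J ^ 2) := by
      rw [hQ]; ring
    omega
  have hd1 : L / ((κ + 1) * (2 * 10 ^ 6 * J)) ≤ 3 * ((κ + 1) * J) :=
    (Nat.div_le_div_left hm1' (by positivity)).trans hd2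
  set S0 : Finset ℕ := univ.biUnion (fun d => (X d).image (fun x => ρ d + Q * x)) with hS0
  have hc0 : S0.card ≤ κ * (3938 * J) := by
    refine card_biUnion_le.trans ?_
    have h1 : ∀ d ∈ (univ : Finset (Fin κ)),
        ((X d).image (fun x => ρ d + Q * x)).card ≤ 3938 * J :=
      fun d _ => card_image_le.trans (hX1 d)
    refine (sum_le_card_nsmul _ _ (3938 * J) h1).trans ?_
    simp
  refine ⟨L, ?_, S0 ∪ S1 ∪ S2 ∪ S3, ?_, ?_, ?_, ?_, ?_⟩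
  · have h1 : 10 ^ 6 * ((κ + 1) ^ 2 * J ^ 2) ≤ (10 ^ 6 + 1) * (Q * J ^ 2) := by
      have : 10 ^ 6 * (κ + 1) ≤ (10 ^ 6 + 1) * κ := by omega
      calc 10 ^ 6 * ((κ + 1) ^ 2 * J ^ 2) = (10 ^ 6 * (κ + 1)) * ((κ + 1) * J ^ 2) := by ring
        _ ≤ ((10 ^ 6 + 1) * κ) * ((κ + 1) * J ^ 2) := Nat.mul_le_mul_right _ this
        _ = _ := by rw [hQ]; ring
    have h2 : (3955 * ((κ + 1) * J)) ^ 2 = 15642025 * ((κ + 1) ^ 2 * J ^ 2) := by ring
    rw [h2]; omega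
  · have h1 := card_union_le (S0 ∪ S1 ∪ S2) S3
    have h2 := card_union_le (S0 ∪ S1) S2
    have h3 := card_union_le S0 S1
    have h4 : κ * (3938 * J) ≤ 3938 * ((κ + 1) * J) := by nlinarith
    have h5 : 10 ^ 6 * J ≤ (κ + 1) * J := Nat.mul_le_mul_right _ (by omega)
    have h6 : 3 * (κ + 1) * J = 3 * ((κ + 1) * J) := by ring
    omega
  · exact mem_union_right _ c2
  · exact mem_union_right _ c3
  · intro x hx
    simp only [mem_union] at hx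
    rcases hx with ((hx | hx) | hx) | hx
    · obtain ⟨d, -, hd⟩ := mem_biUnion.1 hx
      obtain ⟨z, hz, rfl⟩ := mem_image.1 hd
      have h1 := Nat.mul_le_mul_left Q (hX2 d z hz)
      have h2 := hρ1 d
      have h3 : Q * (5250008 * J ^ 2) = 5250008 * (Q * J ^ 2) := by ring
      omega
    · exact a2 x hx
    · exact b2 x hx
    · exact c4 x hx
  · intro v hv
    by_cases h1 : L < v + (3 * (κ + 1) * J) * (3 * (κ + 1) * J)
    · obtain ⟨x, hx, y, hy, h⟩ := c5 v hv h1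
      exact ⟨x, by simp [hx], y, by simp [hy], h⟩
    rw [hT] at h1
    by_cases h2 : (κ + 1) ∣ v
    · obtain ⟨x, hx, y, hy, h⟩ := a3 v h2 (by omega)
      exact ⟨x, by simp [hx], y, by simp [hy], h⟩
    by_cases h3 : κ ∣ v
    · obtain ⟨x, hx, y, hy, h⟩ := b3 v h3 (by omega)
      exact ⟨x, by simp [hx], y, by simp [hy], h⟩
    obtain ⟨a, b, hab, hm⟩ := hρ2 v h2 h3
    have hle : ρ a ≤ ρ b + v := by
      by_contra hlt
      have h4 := Nat.ModEq.eq_of_lt_of_lt hm (hρ1 a) (by have := hρ1 a; omega)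
      omega
    obtain ⟨w, hw⟩ := (Nat.modEq_iff_dvd' hle).1 hm
    have hw1 : w < 5250000 * J ^ 2 := by
      have h4 := hρ1 b
      have h5 : Q * w < Q * (5250000 * J ^ 2) := by
        have : Q * (5250000 * J ^ 2) = 5250000 * (Q * J ^ 2) := by ring
        omega
      exact lt_of_mul_lt_mul_left h5 (Nat.zero_le _)
    obtain ⟨x, hx, y, hy, hxy⟩ := hX3 a b hab w hw1
    have hxS : ρ a + Q * x ∈ S0 := mem_biUnion.2 ⟨a, mem_univ _, mem_image.2 ⟨x, hx, rfl⟩⟩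
    have hyS : ρ b + Q * y ∈ S0 := mem_biUnion.2 ⟨b, mem_univ _, mem_image.2 ⟨y, hy, rfl⟩⟩
    refine ⟨ρ b + Q * y, by simp [hyS], ρ a + Q * x, by simp [hxS], ?_⟩
    rw [hxy, Nat.mul_add]; omega

theorem marks (N0 : ℕ) : ∃ N L : ℕ, N0 ≤ N ∧ 50 * N ^ 2 ≤ 149 * L ∧ ∃ A : Finset ℕ,
    A.card ≤ N ∧ 0 ∈ A ∧ L ∈ A ∧ (∀ x ∈ A, x ≤ L) ∧ ∀ v ≤ L, ∃ x ∈ A, ∃ y ∈ A, x + v = y := by
  obtain ⟨c, k0, hc, h⟩ := marks1
  obtain ⟨L, h1, h2⟩ := h (k0 + N0) (by omega)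
  refine ⟨c * (k0 + N0), L, ?_, h1, h2⟩
  have := Nat.le_mul_of_pos_left (k0 + N0) hc
  omega

end Pool.Agent.MP_f485b3_co.H43
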